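import Pool.Agent.Helper83.MT.SumPrime
import Pool.Agent.Helper1.MT.DefsU

/-!
# Project MT, module MU-N2: the sieve sum over the `n` such that `n + h m` is prime, uniformly
-/

set_option autoImplicit false

open Finset Filter Topology
open scoped ArithmeticFunction.vonMangoldt

namespace Pool.Agent.Helper72.MT

open Pool.Agent.Helper1.MT
open Pool.Agent.Helper18.BV (wt IsWt)
open Pool.Agent.Helper83.MT

theorem eventually_smallU (K : ℕ) {C1 C2 A : ℝ} (hC1 : 0 < C1) (hC2 : 0 < C2) :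
    ∀ᶠ x : ℝ in atTop, ((C1 * Real.log x) ^ K) ^ 2 *
      (1 / Real.log x ^ (((2 * K + 1 : ℕ) : ℝ) + A) +
        x ^ (4 / 81 : ℝ) * (C2 * Real.log x ^ 2 * x ^ (-(1 / 8) : ℝ))) ≤
      1 / Real.log x ^ A := by
  have hlog := Real.tendsto_log_atTop.eventually_ge_atTop (max 1 (2 * (C1 ^ K) ^ 2))
  have hA' : 0 < (C1 ^ K) ^ 2 * C2 := by positivity
  have hlit := (isLittleO_log_rpow_rpow_atTop (s := 49 / 648) (((2 * K + 2 : ℕ) : ℝ) + A)
    (by norm_num)).bound (show (0 : ℝ) < 1 / (2 * ((C1 ^ K) ^ 2 * C2)) by positivity)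
  filter_upwards [hlog, hlit, eventually_gt_atTop 1] with x h1 h2 hx
  have hx0 : 0 < x := by linarith
  have hl1 : 1 ≤ Real.log x := (le_max_left _ _).trans h1
  have hl2 : 2 * (C1 ^ K) ^ 2 ≤ Real.log x := (le_max_right _ _).trans h1
  have hl0 : 0 < Real.log x := by linarith
  rw [Real.norm_of_nonneg (Real.rpow_nonneg hl0.le _),
    Real.norm_of_nonneg (Real.rpow_nonneg hx0.le _), Real.rpow_add hl0, Real.rpow_natCast] at h2
  rw [Real.rpow_add hl0, Real.rpow_natCast, mul_add]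
  set Z : ℝ := Real.log x ^ A with hZ
  have hZ0 : 0 < Z := Real.rpow_pos_of_pos hl0 _
  have h3 : ((C1 * Real.log x) ^ K) ^ 2 * (1 / (Real.log x ^ (2 * K + 1) * Z)) ≤
      1 / 2 * (1 / Z) := by
    have h4 : ((C1 * Real.log x) ^ K) ^ 2 * (1 / (Real.log x ^ (2 * K + 1) * Z)) =
        ((C1 ^ K) ^ 2 / Real.log x) * (1 / Z) := by
      have h0 : Real.log x ^ (2 * K + 1) = (Real.log x ^ K) ^ 2 * Real.log x := by
        rw [pow_succ, mul_comm 2 K, pow_mul]
      rw [mul_pow, mul_pow, h0]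
      have : Real.log x ^ K ≠ 0 := by positivity
      field_simp
    rw [h4]
    apply mul_le_mul_of_nonneg_right _ (by positivity)
    rw [div_le_iff₀ hl0]
    linarith
  have h5 : ((C1 * Real.log x) ^ K) ^ 2 *
      (x ^ (4 / 81 : ℝ) * (C2 * Real.log x ^ 2 * x ^ (-(1 / 8) : ℝ))) ≤ 1 / 2 * (1 / Z) := by
    have h6 : x ^ (4 / 81 : ℝ) * x ^ (-(1 / 8) : ℝ) * x ^ (49 / 648 : ℝ) = 1 := by
      rw [← Real.rpow_add hx0, ← Real.rpow_add hx0]
      norm_num
    have h7 : ((C1 * Real.log x) ^ K) ^ 2 *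
        (x ^ (4 / 81 : ℝ) * (C2 * Real.log x ^ 2 * x ^ (-(1 / 8) : ℝ))) =
        ((C1 ^ K) ^ 2 * C2) * (x ^ (4 / 81 : ℝ) * x ^ (-(1 / 8) : ℝ)) * (1 / Z) *
          (Real.log x ^ (2 * K + 2) * Z) := by
      have h0 : Real.log x ^ (2 * K + 2) = (Real.log x ^ K) ^ 2 * Real.log x ^ 2 := by
        rw [pow_add, mul_comm 2 K, pow_mul]
      rw [mul_pow, mul_pow, h0]
      field_simp
    have h8 : 0 ≤ x ^ (4 / 81 : ℝ) * x ^ (-(1 / 8) : ℝ) :=
      mul_nonneg (Real.rpow_nonneg hx0.le _) (Real.rpow_nonneg hx0.le _)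
    rw [h7]
    calc ((C1 ^ K) ^ 2 * C2) * (x ^ (4 / 81 : ℝ) * x ^ (-(1 / 8) : ℝ)) * (1 / Z) *
          (Real.log x ^ (2 * K + 2) * Z)
        ≤ ((C1 ^ K) ^ 2 * C2) * (x ^ (4 / 81 : ℝ) * x ^ (-(1 / 8) : ℝ)) * (1 / Z) *
          (1 / (2 * ((C1 ^ K) ^ 2 * C2)) * x ^ (49 / 648 : ℝ)) :=
          mul_le_mul_of_nonneg_left h2 (by positivity)
      _ = (((C1 ^ K) ^ 2 * C2) * (1 / (2 * ((C1 ^ K) ^ 2 * C2)))) *
          (x ^ (4 / 81 : ℝ) * x ^ (-(1 / 8) : ℝ) * x ^ (49 / 648 : ℝ)) * (1 / Z) := by ring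
      _ = 1 / 2 * (1 / Z) := by
          rw [h6, mul_one]
          congr 1
          field_simp
  linarith

theorem eventually_shift {A : ℝ} :
    ∀ᶠ x : ℝ in atTop, Real.log x ^ A + 2 ≤ x ^ (1 / 8 : ℝ) := by
  have hlit := (isLittleO_log_rpow_rpow_atTop (s := 1 / 8) A
    (by norm_num)).bound (show (0 : ℝ) < 1 / 2 by norm_num)
  have h4 := (tendsto_rpow_atTop (show (0 : ℝ) < 1 / 8 by norm_num)).eventually_ge_atTop 4
  filter_upwards [hlit, h4, eventually_gt_atTop 1] with x h1 h2 hx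
  have hx0 : 0 < x := by linarith
  have hl0 : 0 < Real.log x := Real.log_pos hx
  rw [Real.norm_of_nonneg (Real.rpow_nonneg hl0.le _),
    Real.norm_of_nonneg (Real.rpow_nonneg hx0.le _)] at h1
  linarith

/-- MU-N2: the sieve sum over the `n` such that `n + h m` is prime, uniformly. -/
theorem sumPrimeU (hE : Expand) (hB : BVErrorU) : SumPrimeU := by
  obtain ⟨g, hg, hgne, hg1, hg0'⟩ := Pool.Agent.Helper18.BV.exists_wt
    (show (0 : ℝ) < 3 / 8 by norm_num) (by norm_num)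
  have hg0 : ∀ v, v ≤ 5 / 8 → g v = 0 := fun v hv => hg0' v (by linarith)
  obtain ⟨c, C, XM, hc, hC, hXM, hmass⟩ := Pool.Agent.Helper44.BV.mass g hg hgne
  refine ⟨c, hc, ?_⟩
  intro κ _ _ D0 A hD0 hA
  obtain ⟨C1, hC1, hprod⟩ := prod_bound
  obtain ⟨C2, hC2, hnp⟩ := nonprime_bound
  obtain ⟨XB, hXB, hBV⟩ := hB g hg (3 * Fintype.card κ)
    (((2 * Fintype.card κ + 1 : ℕ) : ℝ) + A) (by positivity)
  obtain ⟨X1, hX1⟩ := eventually_atTop.1 (eventually_smallU (A := A) (Fintype.card κ) hC1 hC2)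
  obtain ⟨X2, hX2⟩ := eventually_atTop.1 (eventually_shift (A := A))
  refine ⟨max (max XM XB) (max X1 (max (2 ^ 81) X2)),
    le_max_of_le_left (le_max_of_le_left hXM), ?_⟩
  intro x hx
  have hxM : XM ≤ x := ((le_max_left _ _).trans (le_max_left _ _)).trans hx
  have hxB : XB ≤ x := ((le_max_right _ _).trans (le_max_left _ _)).trans hx
  have hx1 : X1 ≤ x := ((le_max_left _ _).trans (le_max_right _ _)).trans hx
  have hx2 : (2 : ℝ) ^ 81 ≤ x := ((le_max_left _ _).trans ((le_max_right _ _).trans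
    (le_max_right _ _))).trans hx
  have hxh : X2 ≤ x := ((le_max_right _ _).trans ((le_max_right _ _).trans
    (le_max_right _ _))).trans hx
  have hx3 : 3 ≤ x := hXM.trans hxM
  have hx0 : 0 < x := by linarith
  have hlog1 : 1 ≤ Real.log x := by
    rw [Real.le_log_iff_exp_le hx0]
    exact (Real.exp_one_lt_d9.le.trans (by norm_num)).trans hx3
  have hlog0 : 0 < Real.log x := by linarith
  intro h W v hS hWA hhA m
  have hWA' : (W : ℝ) ≤ Real.log x ^ (((2 * Fintype.card κ + 1 : ℕ) : ℝ) + A) := by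
    refine hWA.trans (Real.rpow_le_rpow_of_exponent_le hlog1 ?_)
    have : (0 : ℝ) ≤ ((2 * Fintype.card κ + 1 : ℕ) : ℝ) := Nat.cast_nonneg _
    linarith
  set R : ℕ := lev x with hR
  have hRx : (R : ℝ) ≤ x ^ (1 / 81 : ℝ) := Nat.floor_le (Real.rpow_nonneg hx0.le _)
  have hR2 : 2 ≤ R := by
    apply Nat.le_floor
    have h1 : ((2 : ℝ) ^ 81) ^ (1 / 81 : ℝ) = 2 := by
      rw [← Real.rpow_natCast, ← Real.rpow_mul (by norm_num)]
      norm_num
    calc ((2 : ℕ) : ℝ) = ((2 : ℝ) ^ 81) ^ (1 / 81 : ℝ) := by rw [h1]; norm_num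
      _ ≤ x ^ (1 / 81 : ℝ) := Real.rpow_le_rpow (by positivity) hx2 (by norm_num)
  have hR58 : (R : ℝ) ≤ x ^ (5 / 8 : ℝ) :=
    hRx.trans (Real.rpow_le_rpow_of_exponent_le (by linarith) (by norm_num))
  have hR4 : (R : ℝ) ^ 4 ≤ x ^ (4 / 81 : ℝ) := by
    calc (R : ℝ) ^ 4 ≤ (x ^ (1 / 81 : ℝ)) ^ 4 := pow_le_pow_left₀ (Nat.cast_nonneg _) hRx 4
      _ = x ^ (4 / 81 : ℝ) := by
          rw [← Real.rpow_natCast, ← Real.rpow_mul hx0.le]
          norm_num
  have hRlog : Real.log R ≤ Real.log x := by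
    apply Real.log_le_log (by positivity)
    refine hRx.trans ?_
    calc x ^ (1 / 81 : ℝ) ≤ x ^ (1 : ℝ) :=
          Real.rpow_le_rpow_of_exponent_le (by linarith) (by norm_num)
      _ = x := Real.rpow_one x
  have hH : x ^ (1 / 2 : ℝ) + h m + 1 ≤ x ^ (5 / 8 : ℝ) := by
    have h1 : x ^ (5 / 8 : ℝ) = x ^ (1 / 2 : ℝ) * x ^ (1 / 8 : ℝ) := by
      rw [← Real.rpow_add hx0]; norm_num
    have h2 : (h m : ℝ) + 2 ≤ x ^ (1 / 8 : ℝ) := by
      have := hX2 x hxh
      have := hhA m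
      linarith
    have h3 : 1 ≤ x ^ (1 / 2 : ℝ) := Real.one_le_rpow (by linarith) (by norm_num)
    have h4 : (0 : ℝ) ≤ h m := Nat.cast_nonneg _
    rw [h1]
    nlinarith
  have hβ := fun cm hcm => hBV x hxB W hS.W_pos hWA' cm hcm
  rw [← hR] at hβ
  intro y hy1 hyT
  set f := lam (wp R W) y with hf
  set δ : ℝ := C2 * Real.log x ^ 2 * x ^ (-(1 / 8) : ℝ) with hδ
  have hδ0 : 0 ≤ δ := by positivity
  obtain ⟨cm, hcm, hmax⟩ := exists_max_class (err g x) (err_mod g x)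
  have hwp : ∀ p : PS R W, 0 ≤ wp R W p := by
    intro p
    unfold wp
    positivity
  have hL : ∀ c, |f c| ≤ (C1 * Real.log x) ^ Fintype.card κ := by
    intro c
    refine (abs_lam_le hwp hy1 c).trans ?_
    refine (hprod (Fintype.card κ) W R hR2).trans ?_
    apply pow_le_pow_left₀
    · have : 0 ≤ Real.log R := Real.log_nonneg (by exact_mod_cast (by omega : 1 ≤ R))
      positivity
    · exact mul_le_mul_of_nonneg_left hRlog hC1.le
  have hsupp : ∀ c, f c ≠ 0 → ∏ p ∈ supp c, (p : ℕ) ≤ R := by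
    intro c hc0
    obtain ⟨c', hle, hy0⟩ := exists_of_lam_ne_zero hc0
    exact (prod_le_prod_of_subset (supp_subset_of_le hle)).trans
      (prod_le_of_T_le hR2 (hyT c' hy0))
  -- the expansion
  set tot : ℝ := ∑ n ∈ Icc 1 ⌊x⌋₊, Λ n * wt g x n with htot
  have hexp := hE (PS R W) κ (fun p => prm m (wp' R W p)) f (NS x W v) (nu g x (h m)) (sig h)
    (tot / (W.totient : ℝ))
    (fun U => if ∏ p ∈ supp U, (p : ℕ) ≤ R ^ 2 then
      err g x (W * ∏ p ∈ supp U, (p : ℕ)) (cm (W * ∏ p ∈ supp U, (p : ℕ))) + δ else 0)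
    (fun p => sum_prm m _) (by
      intro c c' hc0 hc0' _
      have h1 : ∏ p ∈ supp (join c c'), (p : ℕ) ≤ R ^ 2 := by
        rw [supp_join]
        refine (prod_union_le _ _).trans ?_
        rw [pow_two]
        exact Nat.mul_le_mul (hsupp c hc0) (hsupp c' hc0')
      rw [if_pos h1]
      exact one_colouring hS m hg hg1 hg0 hx3 hH hR58 hδ0 (hnp x hx3) hmax (join c c'))
  have htotal := total_error hS hD0 hL hδ0 (R := R) (g := g) (x := x) (cm := cm)
    (β := 1 / Real.log x ^ (((2 * Fintype.card κ + 1 : ℕ) : ℝ) + A)) (hβ cm hcm)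
  have hsmall := hX1 x hx1
  have herr : ((C1 * Real.log x) ^ Fintype.card κ) ^ 2 *
      (1 / Real.log x ^ (((2 * Fintype.card κ + 1 : ℕ) : ℝ) + A) + (R : ℝ) ^ 4 * δ) ≤
      1 / Real.log x ^ A := by
    refine le_trans ?_ hsmall
    apply mul_le_mul_of_nonneg_left _ (by positivity)
    apply add_le_add le_rfl
    exact mul_le_mul_of_nonneg_right hR4 hδ0
  have h1 := (hexp.trans htotal).trans herr
  have h2 := (abs_le.1 h1).1
  set Q := Qf (fun p => prm m (wp' R W p)) f with hQ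
  have hQ0 : 0 ≤ Q := Qf_nonneg (fun p a => prm_nonneg hS hD0 m p a) f
  have hmassx := (hmass x hxM).1
  set Sg : ℝ := ∑ n ∈ NS x W v, nu g x (h m) n *
    (∑ c ∈ univ.filter (fun c : PS R W → Option κ => Le c (sig h n)), f c) ^ 2 with hSg
  have h3 : (1 / Real.log x) * Sg ≤
      ∑ n ∈ (NS x W v).filter (fun n => (n + h m).Prime), (1 / (n : ℝ)) * sw h f n := by
    have h4 : Sg = ∑ n ∈ (NS x W v).filter (fun n => (n + h m).Prime),
        nu g x (h m) n * sw h f n := by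
      rw [Finset.sum_filter]
      apply Finset.sum_congr rfl
      intro n _
      rw [sw_eq hS f n]
      split_ifs with hp
      · rfl
      · unfold nu
        rw [if_neg hp, zero_mul]
    rw [h4, Finset.mul_sum]
    apply Finset.sum_le_sum
    intro n hn
    have hn1 := (mem_NS.1 (Finset.mem_filter.1 hn).1).1.1
    have hn0 : (0 : ℝ) < n := by exact_mod_cast (by omega : 0 < n)
    rw [← mul_assoc]
    have hsw : 0 ≤ sw h f n := by rw [sw_eq hS f n]; positivity
    apply mul_le_mul_of_nonneg_right _ hsw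
    by_cases hν : nu g x (h m) n = 0
    · rw [hν, mul_zero]
      positivity
    obtain ⟨hp, h5, h6⟩ := nu_range hg hg0 (by linarith) hν
    have h7 : nu g x (h m) n ≤ Real.log x * (1 / n) := by
      unfold nu
      rw [if_pos hp, ArithmeticFunction.vonMangoldt_apply_prime hp]
      have hq0 : (0 : ℝ) < ((n + h m : ℕ) : ℝ) := by exact_mod_cast hp.pos
      apply mul_le_mul
      · exact Real.log_le_log hq0 h6.le
      · unfold wt
        apply div_le_div₀ zero_le_one (hg1 _) hn0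
        exact_mod_cast Nat.le_add_right n (h m)
      · exact Pool.Agent.Helper18.BV.wt_nonneg hg _ _
      · exact hlog0.le
    calc 1 / Real.log x * nu g x (h m) n ≤ 1 / Real.log x * (Real.log x * (1 / n)) :=
          mul_le_mul_of_nonneg_left h7 (by positivity)
      _ = 1 / n := by field_simp
  refine le_trans ?_ h3
  have hZ0 : 0 < 1 / Real.log x ^ A := by
    have := Real.rpow_pos_of_pos hlog0 A
    positivity
  have h8 : tot / (W.totient : ℝ) * Q - 1 / Real.log x ^ A ≤ Sg := by linarith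
  have hφ : (0 : ℝ) ≤ W.totient := Nat.cast_nonneg _
  have h9 : c / (W.totient : ℝ) * Q ≤ (1 / Real.log x) * (tot / (W.totient : ℝ) * Q) := by
    have h10 : (1 / Real.log x) * (tot / (W.totient : ℝ) * Q) =
        (tot / Real.log x) * (Q / (W.totient : ℝ)) := by ring
    have h11 : c / (W.totient : ℝ) * Q = c * (Q / (W.totient : ℝ)) := by ring
    rw [h10, h11]
    apply mul_le_mul_of_nonneg_right _ (by positivity)
    rw [le_div_iff₀ hlog0]
    exact hmassx
  have h12 : (1 / Real.log x) * (tot / (W.totient : ℝ) * Q - 1 / Real.log x ^ A) ≤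
      (1 / Real.log x) * Sg :=
    mul_le_mul_of_nonneg_left h8 (by positivity)
  have h13 : 1 / Real.log x ≤ 1 := by
    rw [div_le_one hlog0]
    exact hlog1
  have h14 : (1 / Real.log x) * (tot / (W.totient : ℝ) * Q - 1 / Real.log x ^ A) =
      (1 / Real.log x) * (tot / (W.totient : ℝ) * Q) -
        (1 / Real.log x) * (1 / Real.log x ^ A) := by ring
  have h15 : (1 / Real.log x) * (1 / Real.log x ^ A) ≤ 1 / Real.log x ^ A := by
    calc (1 / Real.log x) * (1 / Real.log x ^ A) ≤ 1 * (1 / Real.log x ^ A) :=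
          mul_le_mul_of_nonneg_right h13 hZ0.le
      _ = 1 / Real.log x ^ A := one_mul _
  linarith

end Pool.Agent.Helper72.MT
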